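import Mathlib

set_option autoImplicit false

namespace Pool.Agent.Results.MP_f322fd_al.MixedChar

open Polynomial IsLocalRing

lemma split (s : ℤ[X]) : (∃ a b, s = 2 * a + X * b) ∨ ∃ a b, s = 1 + (2 * a + X * b) := by
  obtain ⟨b, hb⟩ := X_dvd_sub_C (p := s)
  rcases Int.even_or_odd' (s.coeff 0) with ⟨c, h | h⟩
  · exact Or.inl ⟨C c, b, by rw [← hb, h]; simp⟩
  · exact Or.inr ⟨C c, b, by rw [← hb, h]; simp; ring⟩

lemma exists_m : ∃ m : Ideal ℤ[X], m.IsPrime ∧ ∀ s, s ∈ m ↔ ∃ a b, s = 2 * a + X * b := by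
  refine ⟨RingHom.ker (eval₂RingHom (Int.castRingHom (ZMod 2)) 0), RingHom.ker_isPrime _, fun s => ?_⟩
  have h2 : (2 : ZMod 2) = 0 := rfl
  have e : ∀ a b : ℤ[X], eval₂RingHom (Int.castRingHom (ZMod 2)) 0 (2 * a + X * b) = 0 := by
    intro a b
    rw [map_add, map_mul, map_mul, map_ofNat, h2]; simp
  refine ⟨fun h => (split s).resolve_right ?_, ?_⟩
  · rintro ⟨a, b, rfl⟩
    rw [RingHom.mem_ker, map_add, e] at h
    simp at h
  · rintro ⟨a, b, rfl⟩; exact e a b

lemma prime_quad (a b : ℤ) (h : ∀ x : ℤ, x ^ 2 + a * x + b ≠ 0) :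
    Prime (X ^ 2 + C a * X + C b : ℤ[X]) := by
  have hm : (X ^ 2 + C a * X + C b : ℤ[X]).Monic := by monicity!
  have hd : (X ^ 2 + C a * X + C b : ℤ[X]).natDegree = 2 := by compute_degree!
  refine Irreducible.prime ((hm.irreducible_iff_roots_eq_zero_of_degree_le_three (by omega)
    (by omega)).2 (Multiset.eq_zero_of_forall_notMem fun x hx => h x ?_))
  simpa using (mem_roots hm.ne_zero).1 hx

lemma fin2 {A B : Type} [CommRing A] [CommRing B] (f : A →+* B) (y : B)
    (h : ∀ x, ∃ a b, x = f a + f b * y) : f.Finite := by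
  algebraize [f]
  refine Module.finite_def.2 (Submodule.fg_def.2 ⟨{1, y}, by simp, eq_top_iff.2 fun x _ => ?_⟩)
  obtain ⟨a, b, rfl⟩ := h x
  exact Submodule.mem_span_pair.2 ⟨a, b, by
    change f a * 1 + f b * y = _
    rw [mul_one]⟩

section
variable (m : Ideal ℤ[X]) [m.IsPrime] (hm : ∀ s, s ∈ m ↔ ∃ a b, s = 2 * a + X * b)
  (L : Type) [CommRing L] [Algebra ℤ[X] L] [IsLocalization.AtPrime L m]
include hm

lemma lift {T : Type} [CommRing T] (F : ℤ[X] →+* T)
    (h : ∀ a b, IsUnit (F (1 + (2 * a + X * b)))) :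
    ∃ G : L →+* T, ∀ s, G (algebraMap ℤ[X] L s) = F s := by
  have : ∀ s : m.primeCompl, IsUnit (F s) := by
    rintro ⟨s, hs⟩
    obtain ⟨a, b, rfl⟩ := (split s).resolve_left fun h => hs ((hm s).2 h)
    exact h a b
  exact ⟨IsLocalization.lift this, IsLocalization.lift_eq this⟩

lemma prime_map (g : ℤ[X]) (hg : Prime g) (h : g ∈ m) :
    (Ideal.span {algebraMap ℤ[X] L g}).IsPrime ∧
      ∀ f, algebraMap ℤ[X] L f ∈ Ideal.span {algebraMap ℤ[X] L g} → g ∣ f := by
  have hp := (Ideal.span_singleton_prime hg.ne_zero).2 hg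
  have hd : Disjoint (m.primeCompl : Set ℤ[X]) (Ideal.span {g} : Ideal ℤ[X]) :=
    Set.disjoint_left.2 fun s hs hs' => hs ((Ideal.span_singleton_le_iff_mem _).2 h hs')
  rw [← Set.image_singleton, ← Ideal.map_span]
  refine ⟨IsLocalization.isPrime_of_isPrime_disjoint _ L _ hp hd, fun f hf => ?_⟩
  rw [← Ideal.mem_span_singleton, ← IsLocalization.under_map_of_isPrime_disjoint _ L hp hd]
  exact hf

lemma max_eq [IsLocalRing L] : maximalIdeal L = Ideal.span {2, algebraMap ℤ[X] L X} := by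
  rw [← IsLocalization.AtPrime.map_eq_maximalIdeal m L]
  have : m = Ideal.span {2, X} := by
    ext s
    rw [hm, Ideal.mem_span_pair]
    exact ⟨fun ⟨a, b, h⟩ => ⟨a, b, by rw [h]; ring⟩, fun ⟨a, b, h⟩ => ⟨a, b, by rw [← h]; ring⟩⟩
  conv_lhs => rw [this]
  rw [Ideal.map_span, Set.image_pair, map_ofNat]

lemma not_regular [IsLocalRing L] [IsDomain L] (g : ℤ[X]) (hg : g = X ^ 2 + 4)
    (h0 : algebraMap ℤ[X] L g ≠ 0) : ¬ IsRegularLocalRing (L ⧸ Ideal.span {algebraMap ℤ[X] L g}) := by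
  intro hR
  have hdim : ringKrullDim L ≤ 2 := by
    rw [IsLocalization.AtPrime.ringKrullDim_eq_height m L]
    refine Ideal.height_le_ringKrullDim_of_isPrime.trans ?_
    rw [Polynomial.ringKrullDim_of_isNoetherianRing,
      IsPrincipalIdealRing.ringKrullDim_eq_one ℤ Int.not_isField]
    rfl
  have h1 := (ringKrullDim_quotient_succ_le_of_nonZeroDivisor
    (mem_nonZeroDivisors_of_ne_zero h0)).trans hdim
  rw [← hR.spanFinrank_maximalIdeal] at h1
  have h2 : (maximalIdeal (L ⧸ Ideal.span {algebraMap ℤ[X] L g})).spanFinrank ≤ 1 := by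
    have : (maximalIdeal (L ⧸ Ideal.span {algebraMap ℤ[X] L g})).spanFinrank + 1 ≤ 2 := by
      exact_mod_cast h1
    omega
  have h3 : (maximalIdeal (L ⧸ Ideal.span {algebraMap ℤ[X] L g})).IsPrincipal := by
    rcases Nat.le_one_iff_eq_zero_or_eq_one.1 h2 with h | h
    · rw [(Submodule.spanFinrank_eq_zero_iff_eq_bot (IsNoetherian.noetherian _)).1 h]
      exact bot_isPrincipal
    · exact ((Submodule.spanFinrank_eq_one_iff _).1 h).1
  have n2 : (2 : DualNumber (ZMod 4)) ^ 2 = 0 :=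
    TrivSqZeroExt.ext (by decide) (by decide)
  have ne : (DualNumber.eps : DualNumber (ZMod 4)) ^ 2 = 0 :=
    TrivSqZeroExt.ext (by decide) (by decide)
  obtain ⟨G, hG⟩ := lift m hm L (eval₂RingHom (Int.castRingHom (DualNumber (ZMod 4))) DualNumber.eps)
    (fun a b => by
      rw [map_add, map_one, map_add, map_mul, map_mul, map_ofNat, coe_eval₂RingHom, eval₂_X]
      exact IsNilpotent.isUnit_one_add ((Commute.all _ _).isNilpotent_add
        ((Commute.all _ _).isNilpotent_mul_right ⟨2, n2⟩)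
        ((Commute.all _ _).isNilpotent_mul_right ⟨2, ne⟩)))
  have hX : G (algebraMap ℤ[X] L X) = DualNumber.eps := by rw [hG]; simp
  have hk : ∀ a ∈ Ideal.span {algebraMap ℤ[X] L g}, G a = 0 := by
    intro a ha
    obtain ⟨c, rfl⟩ := Ideal.mem_span_singleton'.1 ha
    rw [map_mul, hg, map_add, map_pow, map_ofNat, map_add, map_pow, map_ofNat, hX, ne]
    have : (0 + 4 : DualNumber (ZMod 4)) = 0 := TrivSqZeroExt.ext (by decide) (by decide)
    rw [this, mul_zero]
  obtain ⟨t, ht⟩ := h3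
  rw [← map_maximalIdeal_of_surjective _ Ideal.Quotient.mk_surjective, max_eq m hm L,
    Ideal.map_span, Set.image_pair] at ht
  have ht := congrArg (Ideal.map (Ideal.Quotient.lift _ G hk)) ht
  rw [Ideal.submodule_span_eq, Ideal.map_span, Ideal.map_span, Set.image_pair, Set.image_singleton,
    Ideal.Quotient.lift_mk, Ideal.Quotient.lift_mk, hX, map_ofNat] at ht
  generalize Ideal.Quotient.lift _ G hk t = u at ht
  obtain ⟨a, ha⟩ := Ideal.mem_span_singleton'.1 (ht ▸ Ideal.subset_span (Or.inl rfl) : 2 ∈ Ideal.span {u})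
  obtain ⟨b, hb⟩ := Ideal.mem_span_singleton'.1
    (ht ▸ Ideal.subset_span (Or.inr rfl) : DualNumber.eps ∈ Ideal.span {u})
  obtain ⟨c, d, hc⟩ := Ideal.mem_span_pair.1 (ht ▸ Ideal.mem_span_singleton_self u)
  have e1 := congrArg TrivSqZeroExt.fst ha
  have e2 := congrArg TrivSqZeroExt.fst hb
  have e3 := congrArg TrivSqZeroExt.snd hb
  have e4 := congrArg TrivSqZeroExt.fst hc
  have f2 : (2 : DualNumber (ZMod 4)).fst = 2 := rfl
  simp [f2] at e1 e2 e3 e4
  revert e1 e2 e3 e4
  generalize a.fst = a0, b.fst = b0, b.snd = b1, u.fst = u0, u.snd = u1, c.fst = c0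
  revert a0 b0 b1 u0 u1 c0
  decide

lemma regular [IsLocalRing L] [IsNoetherianRing L] (q : Ideal L) (hq : q.IsPrime)
    (h : algebraMap ℤ[X] L X ^ 2 + 2 * algebraMap ℤ[X] L X + 2 ∈ q) : IsRegularLocalRing (L ⧸ q) := by
  have := IsLocalRing.of_surjective' (Ideal.Quotient.mk q) Ideal.Quotient.mk_surjective
  have h3 : (maximalIdeal (L ⧸ q)).IsPrincipal := by
    rw [← map_maximalIdeal_of_surjective _ Ideal.Quotient.mk_surjective, max_eq m hm L,
      Ideal.map_span, Set.image_pair, map_ofNat]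
    have := Ideal.Quotient.eq_zero_iff_mem.2 h
    rw [map_add, map_add, map_mul, map_pow, map_ofNat] at this
    generalize Ideal.Quotient.mk q (algebraMap ℤ[X] L X) = y at this
    refine ⟨y, ?_⟩
    rw [Ideal.submodule_span_eq, Ideal.span_pair_eq_span_right_iff_dvd]
    exact ⟨-(y + 2), by linear_combination this⟩
  have : IsPrincipalIdealRing (L ⧸ q) :=
    ((tfae_of_isNoetherianRing_of_isLocalRing_of_isDomain (L ⧸ q)).out 0 4).2 h3
  infer_instance

lemma unit [IsLocalRing L] (a b : L) : IsUnit (1 + (2 * a + algebraMap ℤ[X] L X * b)) := by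
  have : 2 * a + algebraMap ℤ[X] L X * b ∈ maximalIdeal L := by
    rw [max_eq m hm L]; exact Ideal.mem_span_pair.2 ⟨a, b, by ring⟩
  simpa only [sub_neg_eq_add] using
    isUnit_one_sub_self_of_mem_nonunits _ ((maximalIdeal L).neg_mem this)

lemma exists_map [IsLocalRing L] : ∃ (φ : L →+* L) (w : L), (1 + algebraMap ℤ[X] L X) * w = 1 ∧
    φ (algebraMap ℤ[X] L X) = algebraMap ℤ[X] L X * (algebraMap ℤ[X] L X + 2) * w := by
  obtain ⟨w, hw⟩ := (unit m hm L 0 1).exists_right_inv
  obtain ⟨φ, h⟩ := lift m hm L (eval₂RingHom (Int.castRingHom L)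
    (algebraMap ℤ[X] L X * (algebraMap ℤ[X] L X + 2) * w)) (fun a b => by
      rw [map_add, map_one, map_add, map_mul, map_mul, map_ofNat, coe_eval₂RingHom, eval₂_X,
        mul_assoc, mul_assoc]
      exact unit m hm L _ _)
  exact ⟨φ, w, by simpa using hw, by rw [h]; simp⟩

variable (φ : L →+* L) (w : L) (hw : (1 + algebraMap ℤ[X] L X) * w = 1)
  (hφ : φ (algebraMap ℤ[X] L X) = algebraMap ℤ[X] L X * (algebraMap ℤ[X] L X + 2) * w)
include hw hφ

lemma injective : Function.Injective φ := by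
  have key : ∀ f : ℤ[X], φ (algebraMap ℤ[X] L f) = 0 → f = 0 := by
    intro f hf
    have hr : ∀ n : ℕ, (f.map (Int.castRingHom ℚ)).IsRoot (2 * n * (2 * n + 2) / (1 + 2 * n)) := by
      intro n
      obtain ⟨G, hG⟩ := lift m hm L ((Int.castRingHom ℚ).comp (evalRingHom (2 * n))) (fun a b => by
        rw [isUnit_iff_ne_zero, RingHom.comp_apply, eq_intCast, Int.cast_ne_zero]
        simp only [coe_evalRingHom, eval_add, eval_one, eval_mul, eval_X, eval_ofNat]
        rw [mul_assoc]
        omega)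
      have hX : G (algebraMap ℤ[X] L X) = 2 * n := by rw [hG]; simp
      have h1 := congrArg G hw
      rw [map_mul, map_add, map_one, hX] at h1
      have : (G.comp φ).comp (algebraMap ℤ[X] L) =
          eval₂RingHom (Int.castRingHom ℚ) (2 * n * (2 * n + 2) / (1 + 2 * n)) := by
        ext
        · simp
        · have : (1 + 2 * n : ℚ) ≠ 0 := by positivity
          simp only [RingHom.comp_apply, hφ, map_mul, map_add, hX, map_ofNat, coe_eval₂RingHom, eval₂_X]
          rw [eq_div_iff this]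
          linear_combination (2 * n * (2 * n + 2)) * h1
      rw [IsRoot, eval_map, ← coe_eval₂RingHom, ← this, RingHom.comp_apply, RingHom.comp_apply, hf,
        map_zero]
    apply Polynomial.map_injective (Int.castRingHom ℚ) Int.cast_injective
    rw [Polynomial.map_zero]
    refine eq_zero_of_infinite_isRoot _ (Set.infinite_of_injective_forall_mem (fun a b h => ?_) hr)
    have ha : (1 + 2 * a : ℚ) ≠ 0 := by positivity
    have hb : (1 + 2 * b : ℚ) ≠ 0 := by positivity
    rw [div_eq_div_iff ha hb] at h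
    have : ((a : ℚ) - b) * ((1 + 2 * a) * (1 + 2 * b) + 1) = 0 := by linear_combination h / 2
    exact_mod_cast sub_eq_zero.1 ((mul_eq_zero.1 this).resolve_right (by positivity))
  rw [injective_iff_map_eq_zero]
  intro x hx
  obtain ⟨f, s, rfl⟩ := IsLocalization.exists_mk'_eq m.primeCompl x
  rw [IsLocalization.mk'_eq_zero_iff]
  refine ⟨1, ?_⟩
  rw [key f, mul_zero]
  rw [← IsLocalization.mk'_spec L f s, map_mul, hx, zero_mul]

lemma finite [IsLocalRing L] : φ.Finite := by
  have hL : ∀ a, φ a ∈ maximalIdeal L ↔ a ∈ maximalIdeal L := by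
    intro a
    refine ⟨fun h ha => h (ha.map φ), fun h => ?_⟩
    rw [max_eq m hm L] at h ⊢
    obtain ⟨c, d, rfl⟩ := Ideal.mem_span_pair.1 h
    exact Ideal.mem_span_pair.2 ⟨φ c, φ d * (algebraMap ℤ[X] L X + 2) * w, by
      rw [map_add, map_mul, map_mul, map_ofNat, hφ]; ring⟩
  have hy : algebraMap ℤ[X] L X ∈ maximalIdeal L := by
    rw [max_eq m hm L]; exact Ideal.subset_span (Or.inr rfl)
  have h2 : (2 : L) ∈ maximalIdeal L := by
    rw [max_eq m hm L]; exact Ideal.subset_span (Or.inl rfl)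
  generalize hy' : algebraMap ℤ[X] L X = y at hw hφ hy
  have e : y * y = φ y + (φ y - 2) * y := by
    rw [hφ]; linear_combination (-(y * (y + 2))) * hw
  have p : ∀ f : ℤ[X], ∃ a b, algebraMap ℤ[X] L f = φ a + φ b * y := by
    intro f
    induction f using Polynomial.induction_on with
    | C c => exact ⟨c, 0, by simp⟩
    | add f g hf hg =>
      obtain ⟨a, b, h⟩ := hf
      obtain ⟨c, d, k⟩ := hg
      exact ⟨a + c, b + d, by rw [map_add, h, k, map_add, map_add]; ring⟩
    | monomial n c hf =>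
      obtain ⟨a, b, h⟩ := hf
      refine ⟨b * y, a + b * (y - 2), ?_⟩
      rw [pow_succ, ← mul_assoc, map_mul, h, hy', map_add, map_mul, map_mul, map_sub, map_ofNat]
      linear_combination φ b * e
  have all : ∀ x : L, ∃ a b, x = φ a + φ b * y := by
    intro x
    obtain ⟨⟨f, s⟩, hx⟩ := IsLocalization.surj m.primeCompl x
    obtain ⟨a, b, h⟩ := p f
    obtain ⟨c, d, k⟩ := p s
    have hs := IsLocalization.map_units L s
    simp only [h, k] at hx
    rw [k] at hs
    have hc : c ∉ maximalIdeal L := fun hc =>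
      (maximalIdeal L).add_mem ((hL c).2 hc) ((maximalIdeal L).mul_mem_left _ hy) hs
    have hN : IsUnit (c * c + (c * d * (y - 2) - d * d * y)) := by
      by_contra hN
      have := (maximalIdeal L).sub_mem hN ((maximalIdeal L).sub_mem
        ((maximalIdeal L).mul_mem_left (c * d) ((maximalIdeal L).sub_mem hy h2))
        ((maximalIdeal L).mul_mem_left (d * d) hy))
      rw [add_sub_cancel_right] at this
      exact hc ((Ideal.IsPrime.mem_or_mem inferInstance this).elim id id)
    obtain ⟨v, hv⟩ := hN.exists_right_inv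
    have hv' := congrArg φ hv
    refine ⟨v * (a * c + a * d * (y - 2) - b * d * y), v * (b * c - a * d), ?_⟩
    simp only [map_add, map_mul, map_sub, map_ofNat, map_one] at hv' ⊢
    linear_combination (-x) * hv' + φ v * (φ c + φ d * (φ y - 2 - y)) * hx +
      φ v * φ d * (x * φ d - φ b) * e
  exact fin2 φ y all

end

theorem result : ∃ (A B : Type) (_ : CommRing A) (_ : CommRing B) (f : A →+* B) (p : Ideal A),
    IsRegularLocalRing A ∧ IsRegularLocalRing B ∧ CharZero A ∧ CharZero B ∧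
    Function.Injective f ∧ f.Finite ∧ p.IsPrime ∧ IsRegularLocalRing (B ⧸ (p.map f).radical) ∧
    ¬ IsRegularLocalRing (A ⧸ p) ∧ CharZero (A ⧸ p) := by
  obtain ⟨m, hp, hm⟩ := exists_m
  let L := Localization.AtPrime m
  have hi : Function.Injective (algebraMap ℤ[X] L) :=
    IsLocalization.injective L m.primeCompl_le_nonZeroDivisors
  have hc : CharZero L := charZero_of_injective_ringHom hi
  obtain ⟨φ, w, hw, hφ⟩ := exists_map m hm L
  have p1 : Prime (X ^ 2 + 4 : ℤ[X]) := by
    simpa using prime_quad 0 4 fun x => by nlinarith [sq_nonneg x]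
  have p2 : Prime (X ^ 2 + 2 * X + 2 : ℤ[X]) := prime_quad 2 2 fun x => by nlinarith [sq_nonneg (x + 1)]
  obtain ⟨a1, a2⟩ := prime_map m hm L _ p1 ((hm _).2 ⟨2, X, by ring⟩)
  obtain ⟨b1, -⟩ := prime_map m hm L _ p2 ((hm _).2 ⟨X + 1, X, by ring⟩)
  refine ⟨L, L, inferInstance, inferInstance, φ, _, inferInstance, inferInstance, hc, hc,
    injective m hm L φ w hw hφ, finite m hm L φ w hw hφ, a1, ?_,
    not_regular m hm L _ rfl ((map_ne_zero_iff _ hi).2 p1.ne_zero), ?_⟩
  · have : (Ideal.map φ (Ideal.span {algebraMap ℤ[X] L (X ^ 2 + 4)})).radical =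
        Ideal.span {algebraMap ℤ[X] L (X ^ 2 + 2 * X + 2)} := by
      have e : φ (algebraMap ℤ[X] L (X ^ 2 + 4)) =
          algebraMap ℤ[X] L (X ^ 2 + 2 * X + 2) ^ 2 * w ^ 2 := by
        simp only [map_add, map_mul, map_pow, map_ofNat, hφ]
        linear_combination (-4 * ((1 + algebraMap ℤ[X] L X) * w + 1)) * hw
      rw [Ideal.map_span, Set.image_singleton, e,
        Ideal.span_singleton_mul_right_unit ((IsUnit.of_mul_eq_one_right _ hw).pow 2),
        ← Ideal.span_singleton_pow, Ideal.radical_pow _ two_ne_zero, b1.radical]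
    rw [this]
    refine regular m hm L _ b1 ?_
    simp only [map_add, map_mul, map_pow, map_ofNat]
    exact Ideal.mem_span_singleton_self _
  · refine charZero_of_inj_zero fun n hn => ?_
    rw [← map_natCast (Ideal.Quotient.mk _), Ideal.Quotient.eq_zero_iff_mem,
      ← map_natCast (algebraMap ℤ[X] L)] at hn
    by_contra h0
    have h1 := natDegree_le_of_dvd (a2 _ hn) (by exact_mod_cast h0)
    have hd : (X ^ 2 + 4 : ℤ[X]).natDegree = 2 := by compute_degree!
    simp [hd] at h1

end Pool.Agent.Results.MP_f322fd_al.MixedChar
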